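import Mathlib

/-!
# Values of Euler products in the region of absolute convergence and finitely many primes: definitions
-/

set_option autoImplicit false

namespace Pool.Agent.X298.EP

/-- The partial Euler product `∏_{p ≤ X} ∏_i (1 - a_{p,i} p^{-t})⁻¹`. -/
noncomputable def part {n : ℕ} (a : ℕ → Fin n → ℂ) (t : ℝ) (X : ℕ) : ℂ :=
  ∏ p ∈ (Finset.range (X + 1)).filter Nat.Prime, ∏ i, (1 - a p i * ((p : ℝ) ^ (-t) : ℝ))⁻¹

end Pool.Agent.X298.EP
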