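import Pool.Agent.X298.EP.Defs
import Pool.Agent.X298.ST.Main

/-!
# Values of Euler products in the region of absolute convergence and finitely many primes
-/

set_option autoImplicit false

open Filter Topology
open NumberField

namespace Pool.Agent.X298.EP

/-- telescoping bound -/
theorem tail_sum (t : ℝ) (ht : 2 ≤ t) (X Y : ℕ) (hX : 1 ≤ X) :
    ∑ n ∈ Finset.Ioc X Y, (n : ℝ) ^ (-t) ≤ (X : ℝ) ^ (1 - t) := by
  have hX0 : (0 : ℝ) < X := by exact_mod_cast hX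
  have key : ∀ Y : ℕ, X ≤ Y → ∑ n ∈ Finset.Ioc X Y, (n : ℝ) ^ (-t) ≤ (X : ℝ) ^ (2 - t) * (1 / X - 1 / Y) := by
    intro Y hY
    induction Y, hY using Nat.le_induction with
    | base => simp
    | succ Y hY ih =>
      have hY0 : (0 : ℝ) < Y := by exact_mod_cast (by omega : 0 < Y)
      rw [Finset.sum_Ioc_succ_top (by omega)]
      have h1 : (((Y + 1 : ℕ) : ℝ)) ^ (-t) ≤ (X : ℝ) ^ (2 - t) * (1 / Y - 1 / ((Y + 1 : ℕ) : ℝ)) := by
        have hc : (X : ℝ) ≤ ((Y + 1 : ℕ) : ℝ) := by exact_mod_cast (by omega : X ≤ Y + 1)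
        have hp : (0 : ℝ) < ((Y + 1 : ℕ) : ℝ) := by positivity
        have e1 : (((Y + 1 : ℕ) : ℝ)) ^ (-t) = (((Y + 1 : ℕ) : ℝ)) ^ (2 - t) * ((((Y + 1 : ℕ) : ℝ)) ^ 2)⁻¹ := by
          rw [← Real.rpow_natCast, ← Real.rpow_neg hp.le, ← Real.rpow_add hp]
          congr 1
          push_cast
          ring
        rw [e1]
        have h2 : (((Y + 1 : ℕ) : ℝ)) ^ (2 - t) ≤ (X : ℝ) ^ (2 - t) :=
          Real.rpow_le_rpow_of_nonpos hX0 hc (by linarith)
        have h3 : ((((Y + 1 : ℕ) : ℝ)) ^ 2)⁻¹ ≤ 1 / Y - 1 / ((Y + 1 : ℕ) : ℝ) := by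
          push_cast
          rw [div_sub_div _ _ hY0.ne' (by positivity), inv_eq_one_div, div_le_div_iff₀ (by positivity) (by positivity)]
          nlinarith
        exact mul_le_mul h2 h3 (by positivity) (by positivity)
      calc _ ≤ (X : ℝ) ^ (2 - t) * (1 / X - 1 / Y) + (X : ℝ) ^ (2 - t) * (1 / Y - 1 / ((Y + 1 : ℕ) : ℝ)) :=
            add_le_add ih h1
        _ = (X : ℝ) ^ (2 - t) * (1 / X - 1 / ((Y + 1 : ℕ) : ℝ)) := by ring
  by_cases hXY : X ≤ Y
  · refine (key Y hXY).trans ?_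
    have e2 : (X : ℝ) ^ (1 - t) = (X : ℝ) ^ (2 - t) * (1 / X) := by
      rw [one_div, ← Real.rpow_neg_one, ← Real.rpow_add hX0]
      congr 1
      ring
    rw [e2]
    refine mul_le_mul_of_nonneg_left ?_ (by positivity)
    have : (0 : ℝ) ≤ 1 / Y := by positivity
    linarith
  · rw [Finset.Ioc_eq_empty (by omega), Finset.sum_empty]
    positivity

variable {n : ℕ} {a : ℕ → Fin n → ℂ} {t : ℝ}

theorem part_ratio (ha : ∀ p i, ‖a p i‖ ≤ 1) (ht : 2 ≤ t) {X Y : ℕ} (hX : 1 ≤ X) (hXY : X ≤ Y) :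
    ‖part a t Y - part a t X‖ ≤ ‖part a t X‖ * (Real.exp (2 * n * (X : ℝ) ^ (1 - t)) - 1) := by
  set F : ℕ → Fin n → ℂ := fun p i => (1 - a p i * ((p : ℝ) ^ (-t) : ℝ))⁻¹ with hF
  set s : Finset ℕ := (Finset.Ioc X Y).filter Nat.Prime with hs
  have hsplit : part a t Y = part a t X * ∏ p ∈ s, ∏ i, F p i := by
    unfold part
    rw [← Finset.prod_union]
    · congr 1
      ext p
      simp only [Finset.mem_filter, Finset.mem_range, Finset.mem_union, hs, Finset.mem_Ioc]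
      constructor
      · rintro ⟨h1, h2⟩
        by_cases h : p < X + 1
        · exact Or.inl ⟨h, h2⟩
        · exact Or.inr ⟨⟨by omega, by omega⟩, h2⟩
      · rintro (⟨h1, h2⟩ | ⟨⟨h1, h3⟩, h2⟩)
        · exact ⟨by omega, h2⟩
        · exact ⟨by omega, h2⟩
    · rw [Finset.disjoint_left]
      intro p h1 h2
      rw [Finset.mem_filter, Finset.mem_range] at h1
      rw [hs, Finset.mem_filter, Finset.mem_Ioc] at h2
      omega
  have hw : ∀ p ∈ s, ∀ i, ‖F p i - 1‖ ≤ 2 * (p : ℝ) ^ (-t) := by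
    intro p hp i
    rw [hs, Finset.mem_filter] at hp
    have hp2 : (2 : ℝ) ≤ p := by exact_mod_cast hp.2.two_le
    have hp0 : (0 : ℝ) < p := by linarith
    set z : ℂ := a p i * ((p : ℝ) ^ (-t) : ℝ) with hz
    have hzn : ‖z‖ ≤ (p : ℝ) ^ (-t) := by
      rw [hz, norm_mul, Complex.norm_real, Real.norm_eq_abs, abs_of_nonneg (by positivity)]
      calc ‖a p i‖ * (p : ℝ) ^ (-t) ≤ 1 * (p : ℝ) ^ (-t) := by
            gcongr
            exact ha p i
        _ = _ := one_mul _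
    have hq : (p : ℝ) ^ (-t) ≤ 1 / 2 := by
      rw [Real.rpow_neg hp0.le, one_div]
      apply inv_anti₀ (by norm_num)
      calc (2 : ℝ) ≤ p := hp2
        _ = (p : ℝ) ^ (1 : ℝ) := (Real.rpow_one _).symm
        _ ≤ (p : ℝ) ^ t := Real.rpow_le_rpow_of_exponent_le (by linarith) (by linarith)
    have hz2 : ‖z‖ ≤ 1 / 2 := hzn.trans hq
    have h1z : 1 / 2 ≤ ‖1 - z‖ := by
      have := norm_sub_norm_le (1 : ℂ) z
      rw [norm_one] at this
      linarith
    have hne : 1 - z ≠ 0 := by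
      rw [← norm_ne_zero_iff]
      linarith
    have e1 : F p i - 1 = z / (1 - z) := by
      rw [hF]
      simp only
      rw [← hz]
      field_simp
      ring
    rw [e1, norm_div, div_le_iff₀ (by linarith)]
    have h3 : (0 : ℝ) ≤ (p : ℝ) ^ (-t) := by positivity
    nlinarith
  have hprod : ‖∏ p ∈ s, ∏ i, F p i - 1‖ ≤ Real.exp (2 * n * (X : ℝ) ^ (1 - t)) - 1 := by
    rw [← Finset.prod_product' s Finset.univ (fun p i => F p i)]
    have h1 : ∏ x ∈ s ×ˢ (Finset.univ : Finset (Fin n)), F x.1 x.2 =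
        ∏ x ∈ s ×ˢ (Finset.univ : Finset (Fin n)), (1 + (F x.1 x.2 - 1)) :=
      Finset.prod_congr rfl fun x _ => by ring
    rw [h1]
    refine (Finset.norm_prod_one_add_sub_one_le _ _).trans ?_
    refine sub_le_sub_right (Real.exp_le_exp.mpr ?_) 1
    rw [Finset.sum_product]
    calc ∑ p ∈ s, ∑ i, ‖F p i - 1‖ ≤ ∑ p ∈ s, ∑ _i : Fin n, 2 * (p : ℝ) ^ (-t) :=
          Finset.sum_le_sum fun p hp => Finset.sum_le_sum fun i _ => hw p hp i
      _ = 2 * n * ∑ p ∈ s, (p : ℝ) ^ (-t) := by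
          rw [Finset.mul_sum]
          refine Finset.sum_congr rfl fun p _ => ?_
          rw [Finset.sum_const, Finset.card_univ, Fintype.card_fin, nsmul_eq_mul]
          ring
      _ ≤ 2 * n * ∑ p ∈ Finset.Ioc X Y, (p : ℝ) ^ (-t) := by
          refine mul_le_mul_of_nonneg_left ?_ (by positivity)
          exact Finset.sum_le_sum_of_subset_of_nonneg (Finset.filter_subset _ _) fun p _ _ => by positivity
      _ ≤ 2 * n * (X : ℝ) ^ (1 - t) := mul_le_mul_of_nonneg_left (tail_sum t ht X Y hX) (by positivity)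
  have e2 : part a t Y - part a t X = part a t X * (∏ p ∈ s, ∏ i, F p i - 1) := by
    rw [hsplit]
    ring
  rw [e2, norm_mul]
  exact mul_le_mul_of_nonneg_left hprod (norm_nonneg _)

theorem limit_bound (ha : ∀ p i, ‖a p i‖ ≤ 1) (ht : 2 ≤ t) {L : ℂ} (hL : Tendsto (part a t) atTop (𝓝 L)) {X : ℕ}
    (hX : 1 ≤ X) (hX1 : 2 * n * (X : ℝ) ^ (1 - t) ≤ 1) :
    ‖L - part a t X‖ ≤ 4 * n * (X : ℝ) ^ (1 - t) * ‖part a t X‖ := by
  set δ : ℝ := 2 * n * (X : ℝ) ^ (1 - t) with hδ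
  have hδ0 : 0 ≤ δ := by positivity
  have h1 : Real.exp δ - 1 ≤ 2 * δ := by
    have := Real.abs_exp_sub_one_le (x := δ) (by rw [abs_of_nonneg hδ0]; exact hX1)
    rw [abs_of_nonneg hδ0] at this
    exact (le_abs_self _).trans this
  have h2 : ∀ᶠ Y : ℕ in atTop, ‖part a t Y - part a t X‖ ≤ ‖part a t X‖ * (2 * δ) := by
    filter_upwards [eventually_ge_atTop X] with Y hY
    refine (part_ratio ha ht hX hY).trans ?_
    exact mul_le_mul_of_nonneg_left h1 (norm_nonneg _)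
  have h3 : Tendsto (fun Y => ‖part a t Y - part a t X‖) atTop (𝓝 ‖L - part a t X‖) :=
    (hL.sub_const _).norm
  have h4 := le_of_tendsto h3 h2
  calc ‖L - part a t X‖ ≤ ‖part a t X‖ * (2 * δ) := h4
    _ = 4 * n * (X : ℝ) ^ (1 - t) * ‖part a t X‖ := by rw [hδ]; ring

/-- the partial products are bounded and the explicit condition holds for large `X` -/
theorem cond_eventually (ht : 2 ≤ t) {L : ℂ} (hL : Tendsto (part a t) atTop (𝓝 L)) (D : ℝ) {Ω : ℂ} (hΩ : Ω ≠ 0) :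
    ∀ᶠ X : ℕ in atTop, 2 * n * (X : ℝ) ^ (1 - t) ≤ 1 ∧
      D * (4 * n * (X : ℝ) ^ (1 - t) * ‖part a t X‖) < ‖Ω‖ / 2 := by
  have h0 : Tendsto (fun X : ℕ => (X : ℝ) ^ (1 - t)) atTop (𝓝 0) := by
    have h1 := (tendsto_rpow_neg_atTop (y := t - 1) (by linarith)).comp tendsto_natCast_atTop_atTop
    refine h1.congr fun X => ?_
    simp only [Function.comp_apply]
    congr 1
    ring
  have h1 : Tendsto (fun X : ℕ => 2 * n * (X : ℝ) ^ (1 - t)) atTop (𝓝 0) := by
    have := h0.const_mul (2 * (n : ℝ))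
    rwa [mul_zero] at this
  have h2 : Tendsto (fun X : ℕ => D * (4 * n * (X : ℝ) ^ (1 - t) * ‖part a t X‖)) atTop (𝓝 0) := by
    have h3 := ((h0.const_mul (4 * (n : ℝ))).mul hL.norm).const_mul D
    rwa [mul_zero, zero_mul, mul_zero] at h3
  have hΩ' : (0 : ℝ) < ‖Ω‖ / 2 := by
    have := norm_pos_iff.mpr hΩ
    linarith
  exact (h1.eventually (ge_mem_nhds one_pos)).and (h2.eventually_lt_const hΩ')

end Pool.Agent.X298.EP
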